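import Mathlib

/-!
# Graphs with a dominating edge (helper45)

A graph `G` with maximum degree `Δ ≥ 3` which has an edge `ab` such that every vertex is adjacent
to `a` or to `b` has a proper conflict-free colouring with `Δ + 1` colours.
-/

set_option autoImplicit false

namespace Pool.Agent.PcfJ45

open Finset

variable {V : Type*} [DecidableEq V]

/-- A numbering of a finite set. -/
theorem num (Q : Finset V) : ∃ g : V → ℕ, (∀ x ∈ Q, g x < Q.card) ∧
    ∀ x ∈ Q, ∀ y ∈ Q, g x = g y → x = y := by
  refine ⟨fun v => if h : v ∈ Q then (Q.equivFin ⟨v, h⟩ : ℕ) else 0, ?_, ?_⟩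
  · intro x hx
    simp only [hx, dif_pos]
    exact (Q.equivFin ⟨x, hx⟩).2
  · intro x hx y hy h
    simp only [hx, hy, dif_pos] at h
    have := Q.equivFin.injective (Fin.ext h)
    exact congrArg Subtype.val this

/-- An injection between finite sets. -/
theorem inj {W : Type*} (R : Finset V) (T : Finset W) [DecidableEq W] (w₀ : W)
    (h : R.card ≤ T.card) :
    ∃ f : V → W, (∀ x ∈ R, f x ∈ T) ∧ ∀ x ∈ R, ∀ y ∈ R, f x = f y → x = y := by
  have h1 : Fintype.card {x // x ∈ R} ≤ Fintype.card {x // x ∈ T} := by
    rw [Fintype.card_coe, Fintype.card_coe]; exact h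
  obtain ⟨e⟩ := Function.Embedding.nonempty_of_card_le h1
  refine ⟨fun v => if hv : v ∈ R then (e ⟨v, hv⟩ : W) else w₀, ?_, ?_⟩
  · intro x hx
    simp only [hx, dif_pos]
    exact (e ⟨x, hx⟩).2
  · intro x hx y hy hxy
    simp only [hx, hy, dif_pos] at hxy
    have := e.injective (Subtype.ext hxy)
    exact congrArg Subtype.val this

variable (G : SimpleGraph V) [DecidableRel G.Adj]

/-- A small case of Brooks' theorem: at most `2k` vertices, maximum degree at most `k`,
no clique with more than `k` vertices. -/
theorem brooks (k : ℕ) : ∀ S : Finset V, S.card ≤ 2 * k →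
    (∀ v ∈ S, (S.filter fun u => G.Adj v u).card ≤ k) →
    (∀ Q ⊆ S, (∀ x ∈ Q, ∀ y ∈ Q, x ≠ y → G.Adj x y) → Q.card ≤ k) →
    ∃ c : V → ℕ, (∀ v ∈ S, c v < k) ∧ ∀ x ∈ S, ∀ y ∈ S, G.Adj x y → c x ≠ c y := by
  induction k with
  | zero =>
    intro S hS _ _
    have : S = ∅ := by
      rw [← Finset.card_eq_zero]; omega
    subst this
    exact ⟨fun _ => 0, by simp, by simp⟩
  | succ k ih =>
    intro S hS hd hc
    by_cases hQ : ∃ Q ⊆ S, (∀ x ∈ Q, ∀ y ∈ Q, x ≠ y → G.Adj x y) ∧ Q.card = k + 1
    · obtain ⟨Q, hQS, hcl, hQc⟩ := hQ
      have hR : (S \ Q).card ≤ k + 1 := by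
        rw [Finset.card_sdiff_of_subset hQS]; omega
      have h1 : ∀ q ∈ Q, ((S \ Q).filter fun u => G.Adj q u).card ≤ 1 := by
        intro q hq
        have h2 := hd q (hQS hq)
        have h3 : (Q.erase q) ∪ ((S \ Q).filter fun u => G.Adj q u) ⊆
            S.filter fun u => G.Adj q u := by
          intro u hu
          rw [mem_union, mem_erase, mem_filter, mem_sdiff] at hu
          rw [mem_filter]
          rcases hu with ⟨hu1, hu2⟩ | ⟨⟨hu1, _⟩, hu3⟩
          · exact ⟨hQS hu2, hcl q hq u hu2 (Ne.symm hu1)⟩
          · exact ⟨hu1, hu3⟩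
        have h4 : Disjoint (Q.erase q) ((S \ Q).filter fun u => G.Adj q u) := by
          rw [Finset.disjoint_left]
          intro u hu hu'
          rw [mem_erase] at hu
          rw [mem_filter, mem_sdiff] at hu'
          exact hu'.1.2 hu.2
        have h5 := Finset.card_le_card h3
        rw [Finset.card_union_of_disjoint h4, Finset.card_erase_of_mem hq, hQc] at h5
        omega
      -- Hall's condition
      obtain ⟨f, hf1, hf2⟩ := (Finset.all_card_le_biUnion_card_iff_exists_injective
        (fun r : {x // x ∈ S \ Q} => Q.filter fun q => ¬ G.Adj (r : V) q)).1 (by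
          intro s
          rcases Nat.lt_or_ge s.card 2 with hs | hs
          · rcases Nat.eq_zero_or_pos s.card with h0 | h0
            · rw [h0]; exact Nat.zero_le _
            · have hs1 : s.card = 1 := by omega
              obtain ⟨r, hr⟩ := Finset.card_eq_one.1 hs1
              subst hr
              rw [Finset.singleton_biUnion, Finset.card_singleton]
              rw [Nat.succ_le_iff, Finset.card_pos]
              by_contra hne
              rw [Finset.not_nonempty_iff_eq_empty] at hne
              have hall : ∀ q ∈ Q, G.Adj (r : V) q := by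
                intro q hq
                by_contra hnq
                have : q ∈ (Q.filter fun q => ¬ G.Adj (r : V) q) := by
                  rw [mem_filter]; exact ⟨hq, hnq⟩
                rw [hne] at this
                exact absurd this (Finset.notMem_empty q)
              have hrS := r.2
              rw [mem_sdiff] at hrS
              have := hc (insert (r : V) Q) (by
                intro x hx
                rw [mem_insert] at hx
                rcases hx with rfl | hx
                · exact hrS.1
                · exact hQS hx) (by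
                intro x hx y hy hxy
                rw [mem_insert] at hx hy
                rcases hx with rfl | hx
                · rcases hy with rfl | hy
                  · exact absurd rfl hxy
                  · exact hall y hy
                · rcases hy with rfl | hy
                  · exact (hall x hx).symm
                  · exact hcl x hx y hy hxy)
              rw [Finset.card_insert_of_notMem hrS.2, hQc] at this
              omega
          · have h6 : Q ⊆ s.biUnion
                (fun r : {x // x ∈ S \ Q} => Q.filter fun q => ¬ G.Adj (r : V) q) := by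
              intro q hq
              rw [mem_biUnion]
              by_contra hno
              push Not at hno
              obtain ⟨r1, hr1, r2, hr2, hne⟩ := Finset.one_lt_card.1 (by omega : 1 < s.card)
              have ha : ∀ r ∈ s, G.Adj q (r : V) := by
                intro r hr
                by_contra hn
                apply hno r hr
                rw [mem_filter]
                exact ⟨hq, fun h => hn h.symm⟩
              have h7 := h1 q hq
              have h8 : 1 < ((S \ Q).filter fun u => G.Adj q u).card := by
                rw [Finset.one_lt_card]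
                refine ⟨r1, ?_, r2, ?_, fun h => hne (Subtype.ext h)⟩
                · rw [mem_filter]; exact ⟨r1.2, ha r1 hr1⟩
                · rw [mem_filter]; exact ⟨r2.2, ha r2 hr2⟩
              omega
            have h9 := Finset.card_le_card h6
            have h10 : s.card ≤ (S \ Q).card := by
              have := Finset.card_le_univ s
              rwa [Fintype.card_coe] at this
            omega)
      obtain ⟨g, hg1, hg2⟩ := num Q
      refine ⟨fun v => if v ∈ Q then g v else if h : v ∈ S \ Q then g (f ⟨v, h⟩) else 0, ?_, ?_⟩
      · intro v hv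
        by_cases hvQ : v ∈ Q
        · simp only [hvQ, if_true]
          have := hg1 v hvQ
          omega
        · have hvR : v ∈ S \ Q := by rw [mem_sdiff]; exact ⟨hv, hvQ⟩
          simp only [hvQ, if_false, hvR, dif_pos]
          have h2 := hf2 ⟨v, hvR⟩
          rw [mem_filter] at h2
          have := hg1 _ h2.1
          omega
      · intro x hx y hy hxy hcc
        by_cases hxQ : x ∈ Q
        · by_cases hyQ : y ∈ Q
          · simp only [hxQ, hyQ, if_true] at hcc
            exact hxy.ne (hg2 x hxQ y hyQ hcc)
          · have hyR : y ∈ S \ Q := by rw [mem_sdiff]; exact ⟨hy, hyQ⟩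
            simp only [hxQ, if_true, hyQ, if_false, hyR, dif_pos] at hcc
            have h2 := hf2 ⟨y, hyR⟩
            rw [mem_filter] at h2
            have := hg2 x hxQ _ h2.1 hcc
            apply h2.2
            rw [← this]
            exact hxy.symm
        · have hxR : x ∈ S \ Q := by rw [mem_sdiff]; exact ⟨hx, hxQ⟩
          have h2 := hf2 ⟨x, hxR⟩
          rw [mem_filter] at h2
          by_cases hyQ : y ∈ Q
          · simp only [hxQ, if_false, hyQ, if_true, hxR, dif_pos] at hcc
            have := hg2 _ h2.1 y hyQ hcc
            apply h2.2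
            rw [this]
            exact hxy
          · have hyR : y ∈ S \ Q := by rw [mem_sdiff]; exact ⟨hy, hyQ⟩
            have h3 := hf2 ⟨y, hyR⟩
            rw [mem_filter] at h3
            simp only [hxQ, hyQ, if_false, hxR, hyR, dif_pos] at hcc
            have := hg2 _ h2.1 _ h3.1 hcc
            have := hf1 this
            exact hxy.ne (congrArg Subtype.val this)
    · push Not at hQ
      have hck : ∀ Q ⊆ S, (∀ x ∈ Q, ∀ y ∈ Q, x ≠ y → G.Adj x y) → Q.card ≤ k := by
        intro Q hQS hcl
        have h1 := hc Q hQS hcl
        have h2 := hQ Q hQS hcl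
        omega
      by_cases hS2 : ∀ x ∈ S, ∀ y ∈ S, x ≠ y → G.Adj x y
      · have h1 := hck S (Finset.Subset.refl S) hS2
        obtain ⟨g, hg1, hg2⟩ := num S
        refine ⟨g, fun v hv => ?_, fun x hx y hy hxy hcc => hxy.ne (hg2 x hx y hy hcc)⟩
        have := hg1 v hv
        omega
      · push Not at hS2
        obtain ⟨x, hx, y, hy, hxy, hnadj⟩ := hS2
        -- a maximal independent set containing x and y
        set F := S.powerset.filter fun I => (x ∈ I ∧ y ∈ I) ∧ ∀ u ∈ I, ∀ w ∈ I, ¬ G.Adj u w with hF
        have hFne : F.Nonempty := by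
          refine ⟨{x, y}, ?_⟩
          rw [hF, mem_filter, mem_powerset]
          refine ⟨?_, ⟨by simp, by simp⟩, ?_⟩
          · intro u hu
            rw [mem_insert, mem_singleton] at hu
            rcases hu with rfl | rfl
            · exact hx
            · exact hy
          · intro u hu w hw
            rw [mem_insert, mem_singleton] at hu hw
            rcases hu with rfl | rfl
            · rcases hw with rfl | rfl
              · exact G.loopless.irrefl _
              · exact hnadj
            · rcases hw with rfl | rfl
              · exact fun h => hnadj h.symm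
              · exact G.loopless.irrefl _
        obtain ⟨I, hI, hmax⟩ := Finset.exists_max_image F Finset.card hFne
        rw [hF, mem_filter, mem_powerset] at hI
        obtain ⟨hIS, ⟨hxI, hyI⟩, hind⟩ := hI
        have hI2 : 2 ≤ I.card := by
          have : 1 < I.card := Finset.one_lt_card.2 ⟨x, hxI, y, hyI, hxy⟩
          omega
        have hnb : ∀ v ∈ S \ I, ∃ u ∈ I, G.Adj v u := by
          intro v hv
          rw [mem_sdiff] at hv
          by_contra hno
          push Not at hno
          have h1 : insert v I ∈ F := by
            rw [hF, mem_filter, mem_powerset]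
            refine ⟨?_, ⟨mem_insert_of_mem hxI, mem_insert_of_mem hyI⟩, ?_⟩
            · intro u hu
              rw [mem_insert] at hu
              rcases hu with rfl | hu
              · exact hv.1
              · exact hIS hu
            · intro u hu w hw
              rw [mem_insert] at hu hw
              rcases hu with rfl | hu
              · rcases hw with rfl | hw
                · exact G.loopless.irrefl _
                · exact hno w hw
              · rcases hw with rfl | hw
                · exact fun h => hno u hu h.symm
                · exact hind u hu w hw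
          have h2 := hmax _ h1
          rw [Finset.card_insert_of_notMem hv.2] at h2
          omega
        obtain ⟨c, hc1, hc2⟩ := ih (S \ I) (by
            rw [Finset.card_sdiff_of_subset hIS]; omega) (by
            intro v hv
            obtain ⟨u, huI, hvu⟩ := hnb v hv
            have h1 := hd v (mem_sdiff.1 hv).1
            have h2 : insert u ((S \ I).filter fun u => G.Adj v u) ⊆
                S.filter fun u => G.Adj v u := by
              intro w hw
              rw [mem_insert, mem_filter, mem_sdiff] at hw
              rw [mem_filter]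
              rcases hw with rfl | hw
              · exact ⟨hIS huI, hvu⟩
              · exact ⟨hw.1.1, hw.2⟩
            have h3 := Finset.card_le_card h2
            rw [Finset.card_insert_of_notMem (by
              rw [mem_filter, mem_sdiff]
              exact fun h => h.1.2 huI)] at h3
            omega) (by
            intro Q hQS hcl
            exact hck Q (fun u hu => (mem_sdiff.1 (hQS hu)).1) hcl)
        refine ⟨fun v => if v ∈ I then k else c v, ?_, ?_⟩
        · intro v hv
          by_cases hvI : v ∈ I
          · simp only [hvI, if_true]; omega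
          · simp only [hvI, if_false]
            have := hc1 v (mem_sdiff.2 ⟨hv, hvI⟩)
            omega
        · intro u hu w hw huw hcc
          by_cases huI : u ∈ I
          · by_cases hwI : w ∈ I
            · exact hind u huI w hwI huw
            · simp only [huI, hwI, if_true, if_false] at hcc
              have := hc1 w (mem_sdiff.2 ⟨hw, hwI⟩)
              omega
          · by_cases hwI : w ∈ I
            · simp only [huI, hwI, if_true, if_false] at hcc
              have := hc1 u (mem_sdiff.2 ⟨hu, huI⟩)
              omega
            · simp only [huI, hwI, if_false] at hcc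
              exact hc2 u (mem_sdiff.2 ⟨hu, huI⟩) w (mem_sdiff.2 ⟨hw, hwI⟩) huw hcc

/-- `c` is proper and every vertex has a neighbour whose colour occurs once among its
neighbours. -/
def Good (c : V → ℕ) : Prop :=
  (∀ u v, G.Adj u v → c u ≠ c v) ∧
    ∀ v, ∃ u, G.Adj v u ∧ ∀ w, G.Adj v w → c w = c u → w = u

variable [Fintype V]

/-- The case of a clique with `Δ` vertices outside the dominating edge. -/
theorem clique_case {D : ℕ} (hD : G.maxDegree = D) {a b : V} (hab : G.Adj a b)
    (hdom : ∀ v, G.Adj v a ∨ G.Adj v b) {Q : Finset V} (ha : a ∉ Q) (hb : b ∉ Q)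
    (hcl : ∀ x ∈ Q, ∀ y ∈ Q, x ≠ y → G.Adj x y) (hQ : Q.card = D)
    (h2 : 2 ≤ (Q.filter fun q => G.Adj q a).card) :
    ∃ c : V → ℕ, (∀ v, c v < D + 1) ∧ Good G c := by
  have hdeg : ∀ v, G.degree v ≤ D := fun v => hD ▸ G.degree_le_maxDegree v
  -- outside neighbours of the clique
  have hout : ∀ q ∈ Q, ∀ w₁ w₂, G.Adj q w₁ → G.Adj q w₂ → w₁ ∉ Q → w₂ ∉ Q → w₁ = w₂ := by
    intro q hq w₁ w₂ h₁ h₂ hn₁ hn₂
    by_contra hne
    have h3 : insert w₁ (insert w₂ (Q.erase q)) ⊆ G.neighborFinset q := by
      intro u hu
      rw [mem_insert, mem_insert, mem_erase] at hu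
      rw [SimpleGraph.mem_neighborFinset]
      rcases hu with rfl | rfl | ⟨hu1, hu2⟩
      · exact h₁
      · exact h₂
      · exact hcl q hq u hu2 (Ne.symm hu1)
    have h4 := Finset.card_le_card h3
    rw [Finset.card_insert_of_notMem (by
        rw [mem_insert, mem_erase]
        rintro (h | h)
        · exact hne h
        · exact hn₁ h.2), Finset.card_insert_of_notMem (by
        rw [mem_erase]; exact fun h => hn₂ h.2), Finset.card_erase_of_mem hq, hQ,
      SimpleGraph.card_neighborFinset_eq_degree] at h4
    have := hdeg q
    have hpos : 0 < D := by rw [← hQ]; exact Finset.card_pos.2 ⟨q, hq⟩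
    omega
  obtain ⟨q1, hq1, q2, hq2, hq12⟩ := Finset.one_lt_card.1
    (by omega : 1 < (Q.filter fun q => G.Adj q a).card)
  rw [mem_filter] at hq1 hq2
  obtain ⟨g, hg1, hg2⟩ := num Q
  -- the rest
  set R := (univ \ Q).erase a |>.erase b with hR
  have hRm : ∀ v, v ∈ R ↔ v ≠ b ∧ v ≠ a ∧ v ∉ Q := by
    intro v
    rw [hR, mem_erase, mem_erase, mem_sdiff]
    simp
  have hRc : R.card ≤ ((Q.erase q1).erase q2).card := by
    have h3 : univ ⊆ G.neighborFinset a ∪ G.neighborFinset b := by
      intro v _
      rw [mem_union, SimpleGraph.mem_neighborFinset, SimpleGraph.mem_neighborFinset]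
      rcases hdom v with h | h
      · exact Or.inl h.symm
      · exact Or.inr h.symm
    have h4 := (Finset.card_le_card h3).trans (Finset.card_union_le _ _)
    rw [SimpleGraph.card_neighborFinset_eq_degree, SimpleGraph.card_neighborFinset_eq_degree] at h4
    have h5 := hdeg a
    have h6 := hdeg b
    have h7 : (univ \ Q).card = (univ : Finset V).card - D := by
      rw [Finset.card_sdiff_of_subset (Finset.subset_univ _), hQ]
    have h8 : R.card = (univ \ Q).card - 2 := by
      rw [hR, Finset.card_erase_of_mem, Finset.card_erase_of_mem]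
      · omega
      · simp [ha]
      · rw [mem_erase]; exact ⟨hab.ne.symm, by simp [hb]⟩
    have h9 : ((Q.erase q1).erase q2).card = Q.card - 2 := by
      rw [Finset.card_erase_of_mem, Finset.card_erase_of_mem hq1.1]
      · omega
      · rw [mem_erase]; exact ⟨Ne.symm hq12, hq2.1⟩
    omega
  obtain ⟨f, hf1, hf2⟩ := inj R ((Q.erase q1).erase q2) a hRc
  have hf1' : ∀ x ∈ R, f x ≠ q2 ∧ f x ≠ q1 ∧ f x ∈ Q := by
    intro x hx
    have := hf1 x hx
    rw [mem_erase, mem_erase] at this
    exact this
  have hnbb : ∀ q ∈ Q, G.Adj q a → ¬ G.Adj q b := by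
    intro q hq h₁ h₂
    exact hab.ne (hout q hq a b h₁ h₂ ha hb)
  have hRQ : ∀ x ∈ R, ∀ q ∈ Q, ¬ G.Adj q x := by
    intro x hx q hq h
    have hx' := (hRm x).1 hx
    rcases hdom q with h' | h'
    · exact hx'.2.1 (hout q hq x a h h' hx'.2.2 ha)
    · exact hx'.1 (hout q hq x b h h' hx'.2.2 hb)
  set c : V → ℕ := fun v => if v = a then D else if v = b then g q1 else if v ∈ Q then g v
    else g (f v) with hc
  have hca : c a = D := by simp [hc]
  have hcb : c b = g q1 := by
    simp [hc, hab.ne.symm]
  have hcQ : ∀ q ∈ Q, c q = g q := by
    intro q hq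
    have h₁ : q ≠ a := fun h => ha (h ▸ hq)
    have h₂ : q ≠ b := fun h => hb (h ▸ hq)
    simp only [hc]
    rw [if_neg h₁, if_neg h₂, if_pos hq]
  have hcR : ∀ x ∈ R, c x = g (f x) := by
    intro x hx
    have hx' := (hRm x).1 hx
    simp only [hc]
    rw [if_neg hx'.2.1, if_neg hx'.1, if_neg hx'.2.2]
  have hcase : ∀ v, v = a ∨ v = b ∨ v ∈ Q ∨ v ∈ R := by
    intro v
    by_cases h₁ : v = a
    · exact Or.inl h₁
    by_cases h₂ : v = b
    · exact Or.inr (Or.inl h₂)
    by_cases h₃ : v ∈ Q
    · exact Or.inr (Or.inr (Or.inl h₃))
    · exact Or.inr (Or.inr (Or.inr ((hRm v).2 ⟨h₂, h₁, h₃⟩)))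
  have hlt : ∀ q ∈ Q, g q < D := fun q hq => hQ ▸ hg1 q hq
  -- colours different from `D` off `a`
  have hltv : ∀ v, v ≠ a → c v < D := by
    intro v hv
    rcases hcase v with rfl | rfl | h | h
    · exact absurd rfl hv
    · rw [hcb]; exact hlt q1 hq1.1
    · rw [hcQ v h]; exact hlt v h
    · rw [hcR v h]; exact hlt _ (hf1' v h).2.2
  -- who has the colour of `q1`, `q2`
  have hq1c : ∀ x ∈ R, c x ≠ g q1 := by
    intro x hx h
    rw [hcR x hx] at h
    exact (hf1' x hx).2.1 (hg2 _ (hf1' x hx).2.2 q1 hq1.1 h)
  have hq2c : ∀ v, c v = g q2 → v = q2 := by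
    intro v h
    rcases hcase v with rfl | rfl | hv | hv
    · rw [hca] at h
      have := hlt q2 hq2.1
      omega
    · rw [hcb] at h
      exact absurd (hg2 q1 hq1.1 q2 hq2.1 h) hq12
    · rw [hcQ v hv] at h
      exact hg2 v hv q2 hq2.1 h
    · rw [hcR v hv] at h
      exact absurd (hg2 _ (hf1' v hv).2.2 q2 hq2.1 h) (hf1' v hv).1
  have hprop : ∀ u v, G.Adj u v → c u = c v → False := by
    -- symmetric treatment
    have key : ∀ u v, G.Adj u v → c u = c v → u ≠ a → v ≠ a → False := by
      intro u v huv hcc hua hva
      rcases hcase u with rfl | rfl | hu | hu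
      · exact hua rfl
      · rcases hcase v with rfl | rfl | hv | hv
        · exact hva rfl
        · exact huv.ne rfl
        · rw [hcb, hcQ v hv] at hcc
          have := hg2 q1 hq1.1 v hv hcc
          subst this
          exact hnbb q1 hq1.1 hq1.2 huv.symm
        · rw [hcb] at hcc
          exact hq1c v hv hcc.symm
      · rcases hcase v with rfl | rfl | hv | hv
        · exact hva rfl
        · rw [hcb, hcQ u hu] at hcc
          have := hg2 u hu q1 hq1.1 hcc
          subst this
          exact hnbb u hu hq1.2 huv
        · rw [hcQ u hu, hcQ v hv] at hcc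
          exact huv.ne (hg2 u hu v hv hcc)
        · exact hRQ v hv u hu huv
      · rcases hcase v with rfl | rfl | hv | hv
        · exact hva rfl
        · rw [hcb] at hcc
          exact hq1c u hu hcc
        · exact hRQ u hu v hv huv.symm
        · rw [hcR u hu, hcR v hv] at hcc
          exact huv.ne (hf2 u hu v hv (hg2 _ (hf1' u hu).2.2 _ (hf1' v hv).2.2 hcc))
    intro u v huv hcc
    by_cases hua : u = a
    · subst hua
      have := hltv v huv.ne.symm
      rw [← hcc, hca] at this
      omega
    · by_cases hva : v = a
      · subst hva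
        have := hltv u hua
        rw [hcc, hca] at this
        omega
      · exact key u v huv hcc hua hva
  refine ⟨c, ?_, fun u v h h' => hprop u v h h', ?_⟩
  · intro v
    by_cases hv : v = a
    · subst hv; rw [hca]; omega
    · have := hltv v hv; omega
  · intro v
    by_cases hva : G.Adj v a
    · refine ⟨a, hva, fun w _ hw => ?_⟩
      by_contra hne
      have := hltv w hne
      rw [hw, hca] at this
      omega
    · have hvb : G.Adj v b := (hdom v).resolve_left hva
      rcases hcase v with rfl | rfl | hv | hv
      · refine ⟨q2, hq2.2.symm, fun w _ hw => ?_⟩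
        rw [hcQ q2 hq2.1] at hw
        exact hq2c w hw
      · exact absurd rfl hvb.ne
      · have hne : v ≠ q2 := fun h => hva (h ▸ hq2.2)
        refine ⟨q2, hcl v hv q2 hq2.1 hne, fun w _ hw => ?_⟩
        rw [hcQ q2 hq2.1] at hw
        exact hq2c w hw
      · refine ⟨b, hvb, fun w hvw hw => ?_⟩
        rw [hcb] at hw
        rcases hcase w with rfl | rfl | hw' | hw'
        · exact absurd hvw hva
        · rfl
        · exact absurd hvw.symm (hRQ v hv w hw')
        · exact absurd hw (hq1c w hw')

/-- **Graphs with a dominating edge.** -/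
theorem dom_edge {D : ℕ} (hD : G.maxDegree = D) (h3 : 3 ≤ D) {a b : V} (hab : G.Adj a b)
    (hdom : ∀ v, G.Adj v a ∨ G.Adj v b) :
    ∃ c : V → ℕ, (∀ v, c v < D + 1) ∧ Good G c := by
  have hdeg : ∀ v, G.degree v ≤ D := fun v => hD ▸ G.degree_le_maxDegree v
  set S := ((univ : Finset V).erase a).erase b with hS
  have hSm : ∀ v, v ∈ S ↔ v ≠ b ∧ v ≠ a := by
    intro v; rw [hS, mem_erase, mem_erase]; simp
  by_cases hcl : ∀ Q ⊆ S, (∀ x ∈ Q, ∀ y ∈ Q, x ≠ y → G.Adj x y) → Q.card ≤ D - 1
  · obtain ⟨c, hc1, hc2⟩ := brooks G (D - 1) S (by
      have h1 : univ ⊆ G.neighborFinset a ∪ G.neighborFinset b := by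
        intro v _
        rw [mem_union, SimpleGraph.mem_neighborFinset, SimpleGraph.mem_neighborFinset]
        rcases hdom v with h | h
        · exact Or.inl h.symm
        · exact Or.inr h.symm
      have h4 := (Finset.card_le_card h1).trans (Finset.card_union_le _ _)
      rw [SimpleGraph.card_neighborFinset_eq_degree,
        SimpleGraph.card_neighborFinset_eq_degree] at h4
      have h5 := hdeg a
      have h6 := hdeg b
      have h8 : S.card = (univ : Finset V).card - 2 := by
        rw [hS, Finset.card_erase_of_mem, Finset.card_erase_of_mem (mem_univ _)]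
        · omega
        · rw [mem_erase]; exact ⟨hab.ne.symm, mem_univ _⟩
      omega) (by
      intro v hv
      have hv' := (hSm v).1 hv
      have h1 : ∃ x, x ∉ S ∧ G.Adj v x := by
        rcases hdom v with h | h
        · exact ⟨a, fun h' => ((hSm a).1 h').2 rfl, h⟩
        · exact ⟨b, fun h' => ((hSm b).1 h').1 rfl, h⟩
      obtain ⟨x, hx1, hx2⟩ := h1
      have h2 : insert x (S.filter fun u => G.Adj v u) ⊆ G.neighborFinset v := by
        intro w hw
        rw [mem_insert, mem_filter] at hw
        rw [SimpleGraph.mem_neighborFinset]
        rcases hw with rfl | hw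
        · exact hx2
        · exact hw.2
      have h4 := Finset.card_le_card h2
      rw [Finset.card_insert_of_notMem (by
        rw [mem_filter]; exact fun h => hx1 h.1),
        SimpleGraph.card_neighborFinset_eq_degree] at h4
      have := hdeg v
      omega) hcl
    set c' : V → ℕ := fun v => if v = a then D else if v = b then D - 1 else c v with hc'
    have h1 : c' a = D := by simp [hc']
    have h2 : c' b = D - 1 := by
      simp [hc', hab.ne.symm]
    have h4 : ∀ v ∈ S, c' v = c v := by
      intro v hv
      have := (hSm v).1 hv
      simp only [hc']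
      rw [if_neg this.2, if_neg this.1]
    have h5 : ∀ v ∈ S, c' v < D - 1 := fun v hv => by rw [h4 v hv]; exact hc1 v hv
    have hcase : ∀ v, v = a ∨ v = b ∨ v ∈ S := by
      intro v
      by_cases h₁ : v = a
      · exact Or.inl h₁
      by_cases h₂ : v = b
      · exact Or.inr (Or.inl h₂)
      · exact Or.inr (Or.inr ((hSm v).2 ⟨h₂, h₁⟩))
    have h6 : ∀ v, c' v = D → v = a := by
      intro v h
      rcases hcase v with rfl | rfl | hv
      · rfl
      · rw [h2] at h; omega
      · have := h5 v hv; omega
    have h7 : ∀ v, c' v = D - 1 → v = b := by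
      intro v h
      rcases hcase v with rfl | rfl | hv
      · rw [h1] at h; omega
      · rfl
      · have := h5 v hv; omega
    refine ⟨c', ?_, ?_, ?_⟩
    · intro v
      rcases hcase v with rfl | rfl | hv
      · rw [h1]; omega
      · rw [h2]; omega
      · have := h5 v hv; omega
    · intro u v huv hcc
      rcases hcase u with rfl | rfl | hu
      · rw [h1] at hcc
        exact huv.ne (h6 v hcc.symm).symm
      · rw [h2] at hcc
        exact huv.ne (h7 v hcc.symm).symm
      · rcases hcase v with rfl | rfl | hv
        · rw [h1] at hcc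
          exact huv.ne (h6 u hcc)
        · rw [h2] at hcc
          exact huv.ne (h7 u hcc)
        · rw [h4 u hu, h4 v hv] at hcc
          exact hc2 u hu v hv huv hcc
    · intro v
      rcases hdom v with h | h
      · exact ⟨a, h, fun w _ hw => h6 w (hw.trans h1)⟩
      · exact ⟨b, h, fun w _ hw => h7 w (hw.trans h2)⟩
  · push Not at hcl
    obtain ⟨Q, hQS, hQc, hcard⟩ := hcl
    have ha : a ∉ Q := fun h => ((hSm a).1 (hQS h)).2 rfl
    have hb : b ∉ Q := fun h => ((hSm b).1 (hQS h)).1 rfl
    have hQD : Q.card = D := by
      have hne : Q.Nonempty := by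
        rw [← Finset.card_pos]; omega
      obtain ⟨q, hq⟩ := hne
      have h1 : ∃ x, x ∉ Q ∧ G.Adj q x := by
        rcases hdom q with h | h
        · exact ⟨a, ha, h⟩
        · exact ⟨b, hb, h⟩
      obtain ⟨x, hx1, hx2⟩ := h1
      have h2 : insert x (Q.erase q) ⊆ G.neighborFinset q := by
        intro w hw
        rw [mem_insert, mem_erase] at hw
        rw [SimpleGraph.mem_neighborFinset]
        rcases hw with rfl | hw
        · exact hx2
        · exact hQc q hq w hw.2 (Ne.symm hw.1)
      have h4 := Finset.card_le_card h2
      rw [Finset.card_insert_of_notMem (by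
        rw [mem_erase]; exact fun h => hx1 h.2), Finset.card_erase_of_mem hq,
        SimpleGraph.card_neighborFinset_eq_degree] at h4
      have := hdeg q
      omega
    by_cases h2 : 2 ≤ (Q.filter fun q => G.Adj q a).card
    · exact clique_case G hD hab hdom ha hb hQc hQD h2
    · refine clique_case G hD hab.symm (fun v => (hdom v).symm) hb ha hQc hQD ?_
      have h4 : Q ⊆ (Q.filter fun q => G.Adj q a) ∪ (Q.filter fun q => G.Adj q b) := by
        intro q hq
        rw [mem_union, mem_filter, mem_filter]
        rcases hdom q with h | h
        · exact Or.inl ⟨hq, h⟩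
        · exact Or.inr ⟨hq, h⟩
      have h5 := (Finset.card_le_card h4).trans (Finset.card_union_le _ _)
      omega

end Pool.Agent.PcfJ45
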